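import Pool.Agent.Q183.GT.Main

/-!
# Green functions on trees of finite cone type have continuous boundary values

`τ` is a rooted tree on the vertex set `V` (root and parent map), `a` its labelling and
`IsConeTree τ a M` says that it is the tree `T(M, j)`, `j` the label of the root. `H` is
`ℓ²(V, ν)` (`IsEll2 ν δ`: the `δ x` are orthogonal with `‖δ x‖² = ν x`, and total;
`val ν δ φ x` is the value `φ(x) = ⟨δ x, φ⟩ / ν x`) and `T` is a label invariant operator.
Then for every vertex `x` the Green functions `G_x(z, T)` and `Γ_x(z, T)` extend continuously from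
the upper half plane to the real axis; in particular the limits along `E + iη`, `η ↓ 0`, exist for
ALL real `E` and are continuous in `E`. The conditions (M0) and (M2) are not needed.

Proof: by (M1) the truncated Green functions are bounded, `|Γ_x|² ≤ ν_x² / m_{j,j}`; they depend
only on the label and satisfy a finite system of polynomial equations over `ℂ(z)` with invertible
Jacobian, hence they are algebraic functions of `z`; a bounded algebraic function has boundary
values. The full Green functions are polynomials in truncated ones.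
-/

set_option autoImplicit false

namespace Pool.Agent.Results.MP_ae9099_mp.ContinuousGreenFunctions

open Filter Topology Set Pool.Agent.Q183.GT

theorem result {V A : Type} [Fintype A] {H : Type*} [NormedAddCommGroup H]
    [InnerProductSpace ℂ H] [CompleteSpace H] (τ : RTree V) (a : V → A) (M : A → A → ℕ)
    (hM : IsConeTree τ a M) (hM1 : ∀ j, 1 ≤ M j j)
    (ν : V → ℝ) (δ : V → H) (hH : IsEll2 ν δ)
    (T : H →L[ℂ] H) (t : V → V → ℂ) (w : V → ℝ) (hT : IsLabelInvariant τ a M ν δ T t w) (x : V) :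
    (∃ Γ : ℝ → ℂ, Continuous Γ ∧ ∀ E : ℝ,
      Tendsto (greenBelow τ δ T x) (𝓝[{z : ℂ | 0 < z.im}] (E : ℂ)) (𝓝 (Γ E)) ∧
      Tendsto (fun η : ℝ => greenBelow τ δ T x (E + η * Complex.I)) (𝓝[>] 0) (𝓝 (Γ E))) ∧
    (∃ G : ℝ → ℂ, Continuous G ∧ ∀ E : ℝ,
      Tendsto (green δ T x) (𝓝[{z : ℂ | 0 < z.im}] (E : ℂ)) (𝓝 (G E)) ∧
      Tendsto (fun η : ℝ => green δ T x (E + η * Complex.I)) (𝓝[>] 0) (𝓝 (G E))) := by
  have key : ∀ f : ℂ → ℂ, HasBdry f → ∃ g : ℝ → ℂ, Continuous g ∧ ∀ E : ℝ,
      Tendsto f (𝓝[{z : ℂ | 0 < z.im}] (E : ℂ)) (𝓝 (g E)) ∧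
      Tendsto (fun η : ℝ => f (E + η * Complex.I)) (𝓝[>] 0) (𝓝 (g E)) := by
    intro f hf
    obtain ⟨g, hg, hg2⟩ := hf.exists_continuous
    exact ⟨g, hg, fun E => ⟨hg2 E, (hg2 E).comp (tendsto_vertical E)⟩⟩
  constructor
  · apply key
    intro E
    obtain ⟨l, hl⟩ := gg_bdry hH hM hT hM1 x E
    refine ⟨ν x * l, ?_⟩
    refine (hl.const_mul (ν x : ℂ)).congr fun z => ?_
    exact (greenBelow_eq hH x z).symm
  · apply key
    intro E
    obtain ⟨n, hn⟩ := τ.reach x
    obtain ⟨l, hl⟩ := GG_bdry hH hM hT hM1 n x hn E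
    refine ⟨ν x * l, ?_⟩
    refine (hl.const_mul (ν x : ℂ)).congr' ?_
    filter_upwards [self_mem_nhdsWithin] with z hz
    exact (green_eq hH hT.selfAdjoint x (ne_of_gt hz : z.im ≠ 0)).symm

end Pool.Agent.Results.MP_ae9099_mp.ContinuousGreenFunctions
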